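import Pool.Agent.Work.MP_245e03_an.Transfer

/-!
# Every non-reflexive subspace of `JT*` contains `J*`

`JTree.JSpace JTree.Node` is the James tree space `JT`, `JTree.JSpace ℕ` the James quasi-reflexive
space `J`, both defined as completions of the finitely supported functions with the norm of the
problem statement; `JTree.JDual T` is the dual of `JTree.JSpace T`.
-/

namespace Pool.Agent.Results.MP_245e03_an.Q1

/-- Every non-reflexive closed linear subspace `Y` of the dual of the James tree space contains a
closed linear subspace linearly homeomorphic to the dual of the James space `J`. -/
theorem result (Y : Submodule ℝ (JTree.JDual JTree.Node))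
    (hY : IsClosed (Y : Set (JTree.JDual JTree.Node)))
    (hnr : ¬ JTree.IsReflexiveSpace Y) :
    JTree.ContainsCopy Y (JTree.JDual ℕ) :=
  JTree.Q1_final Y hY hnr

end Pool.Agent.Results.MP_245e03_an.Q1
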