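import Pool.Agent.Work.MP_245e03_an.Transfer2

/-!
# Every non-separable subspace of `JT*` contains the predual of `JT`

`JTree.JSpace JTree.Node` is the James tree space `JT`, defined as the completion of the finitely
supported functions on the dyadic tree with the norm of the problem statement;
`JTree.JDual JTree.Node` is its dual, and `JTree.predual` is the closed linear span in the dual of
the functionals biorthogonal to the unit vectors.
-/

namespace Pool.Agent.Results.MP_245e03_an.Q2

/-- Every non-separable closed linear subspace `Y` of the dual of the James tree space contains a
closed linear subspace linearly homeomorphic to the predual of the James tree space. -/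
theorem result (Y : Submodule ℝ (JTree.JDual JTree.Node))
    (hY : IsClosed (Y : Set (JTree.JDual JTree.Node)))
    (hsep : ¬ TopologicalSpace.IsSeparable (Y : Set (JTree.JDual JTree.Node))) :
    JTree.ContainsCopy Y JTree.predual :=
  JTree.Q2_final Y hY hsep

end Pool.Agent.Results.MP_245e03_an.Q2
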